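import Pool.Agent.Lib.helper21.NS
set_option linter.style.longLine false
namespace Pool.Agent.Results.MP_5ef322_lc.Q2
open Set Cardinal Order Function Pool.Agent.Lib.helper21.NS

variable {P : Type} [Preorder P] {Y : Type}

/-- `p` forces an existential statement: witnesses are forced densely below `p` -/
def Ex {ι : Type} (φ : ι → P → Prop) (p : P) : Prop := ∀ q ≤ p, ∃ r ≤ q, ∃ i, φ i r

/-- `p` forces that the ground model point `x` lies in the set named by `A` -/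
def Mem (x : Y) (A : Set (Y × P)) : P → Prop := Ex fun t r => r ≤ t ∧ (x, t) ∈ A

/-- `p` forces a negation -/
def Neg (φ : P → Prop) (p : P) : Prop := ∀ q ≤ p, ¬ φ q

variable (X : Type) [LinearOrder X]

/-- a tree of height and size `X` with more than `X` cofinal branches -/
def WKH : Prop := ∃ (T : Type) (_ : PartialOrder T) (ht : T → X), (∀ t, Nonempty (Iio t ≃o Iio (ht t))) ∧
  Surjective ht ∧ #T = #X ∧ succ #X ≤ #{b : Set T | IsChain (· ≤ ·) b ∧ ∀ ξ, ∃ t ∈ b, ht t = ξ}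

variable {X}

/-- `p` forces: each point of `X` has boundedly many `L`-predecessors, and the `b a` are pairwise distinct
unbounded `L`-chains closed under `L`-predecessors -/
structure Forces {ι : Type} (L : Set ((X × X) × P)) (b : ι → Set (X × P)) (p : P) : Prop where
  small : ∀ t, Ex (fun ξ r => ∀ s, ξ ≤ s → Neg (Mem (s, t) L) r) p
  chain : ∀ a s t, s ≠ t → ∀ q ≤ p, Mem s (b a) q → Mem t (b a) q → ∃ r ≤ q, Mem (s, t) L r ∨ Mem (t, s) L r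
  down : ∀ a s t, ∀ q ≤ p, Mem (s, t) L q → Mem t (b a) q → Mem s (b a) q
  unb : ∀ a ξ, Ex (fun s r => ξ ≤ s ∧ Mem s (b a) r) p
  ne : ∀ a c, a ≠ c → Ex (fun s r => Mem s (b a) r ∧ Neg (Mem s (b c)) r ∨ Mem s (b c) r ∧ Neg (Mem s (b a)) r) p

lemma Mem.mono {x : Y} {A : Set (Y × P)} {p q : P} (h : Mem x A p) (e : q ≤ p) : Mem x A q :=
  fun r a => h r (a.trans e)

/-- the tree of initial segments of a family of sets -/
def Tr (𝓑 : Set (Set X)) : Type := {p : X × Set X // ∃ B ∈ 𝓑, B ∩ Iio p.1 = p.2}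

lemma ii {B : Set X} {x y : X} (e : x ≤ y) : B ∩ Iio y ∩ Iio x = B ∩ Iio x := by
  rw [inter_assoc, Iio_inter_Iio, inf_eq_right.2 e]

instance (𝓑 : Set (Set X)) : PartialOrder (Tr 𝓑) where
  le s t := s.1.1 ≤ t.1.1 ∧ s.1.2 = t.1.2 ∩ Iio s.1.1
  le_refl := fun ⟨_, B, _, e⟩ => ⟨le_rfl, by simp only [← e, ii le_rfl]⟩
  le_trans _ _ _ a b := ⟨a.1.trans b.1, by rw [a.2, b.2, ii a.1]⟩
  le_antisymm := fun _ ⟨_, B, _, e⟩ a b => Subtype.ext (Prod.ext (a.1.antisymm b.1) (by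
    simp only [a.2, ← e, a.1.antisymm b.1, ii le_rfl]))

lemma wkh (R : Reg X) (𝓑 : Set (Set X)) (h : succ #X ≤ #𝓑) (k : ∀ ξ, #((· ∩ Iio ξ) '' 𝓑) ≤ #X) : WKH X := by
  obtain ⟨⟨B, hB⟩⟩ := mk_ne_zero_iff.1 ((succ_pos _).trans_le h).ne'
  let n : 𝓑 → X → Tr 𝓑 := fun B ξ => ⟨(ξ, B ∩ Iio ξ), B, B.2, rfl⟩
  have m : ∀ B x y, n B x ≤ n B y ↔ x ≤ y := fun B x y => ⟨fun a => a.1, fun a => ⟨a, (ii a).symm⟩⟩
  have l : ∀ B x y, n B x < n B y ↔ x < y := fun B x y => lt_iff_lt_of_le_iff_le' (m _ _ _) (m _ _ _)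
  have s : Surjective fun t : Tr 𝓑 => t.1.1 := fun x => ⟨n ⟨B, hB⟩ x, rfl⟩
  refine ⟨Tr 𝓑, inferInstance, _, ?_, s, le_antisymm ?_ (mk_le_of_surjective s), h.trans (mk_le_of_injective
    (f := fun B => ⟨range (n B), ?_, fun x => ⟨_, ⟨x, rfl⟩, rfl⟩⟩) fun B C e => Subtype.ext (Set.ext fun x => ?_))⟩
  · rintro ⟨⟨x, a⟩, B, hB, rfl : B ∩ Iio x = a⟩
    refine ⟨(RelIso.ofSurjective (OrderEmbedding.ofMapLEIff (fun y : Iio x =>
      (⟨n ⟨B, hB⟩ y, (l _ _ _).2 y.2⟩ : Iio (n ⟨B, hB⟩ x))) fun _ _ => m _ _ _) fun t => ?_).symm⟩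
    have d : t.1 ≤ n ⟨B, hB⟩ x := le_of_lt t.2
    have e : n ⟨B, hB⟩ t.1.1.1 = t := Subtype.ext (Prod.ext rfl (d.2.trans (ii d.1)).symm)
    exact ⟨⟨_, (l _ _ _).1 (e.trans_lt t.2)⟩, Subtype.ext e⟩
  · refine (mk_le_of_injective (f := fun t : Tr 𝓑 => (⟨t.1.1, t.1.2, t.2⟩ : Σ ξ, (· ∩ Iio ξ) '' 𝓑)) ?_).trans ?_
    · rintro ⟨⟨x, a⟩, _⟩ ⟨⟨y, b⟩, _⟩ e
      obtain rfl : x = y := congrArg (·.1) e
      obtain rfl : a = b := congrArg (·.2.1) e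
      rfl
    · rw [mk_sigma]
      exact (sum_le_sum _ _ k).trans (by simpa using (mul_eq_self R.unc.le).le)
  · rintro _ ⟨x, rfl⟩ _ ⟨y, rfl⟩ -
    simpa [m] using le_total x y
  · obtain ⟨y, hy⟩ := R.exists_gt x
    obtain ⟨z, d⟩ : n B y ∈ range (n C) := (congrArg Subtype.val e).le ⟨y, rfl⟩
    obtain rfl : z = y := congrArg (·.1.1) d
    simpa [n, hy] using (Set.ext_iff.1 (congrArg (·.1.2) d) x).symm

lemma main (R : Reg X) {I ι : Type} (hI : #I < #X) (C : I → Set P) (c1 : ∀ p, ∃ i, p ∈ C i)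
    (c2 : ∀ i, ∀ p ∈ C i, ∀ q ∈ C i, ∃ r ∈ C i, r ≤ p ∧ r ≤ q) (hι : succ #X ≤ #ι)
    {L : Set ((X × X) × P)} {b : ι → Set (X × P)} {p : P} (h : Forces L b p) : WKH X := by
  have cc : ∀ (φ : X → P → Prop) (g : X → X), Ex φ p → ∃ ζ, ∀ q ≤ p, ∃ r ≤ q, ∃ x r', g x ≤ ζ ∧ r ≤ r' ∧ φ x r' :=
    fun φ g e => by
    have := R.nonempty
    choose! x hx using fun i (k : ∃ x, ∃ r ∈ C i, φ x r) => k
    obtain ⟨ζ, d⟩ := R.bdd (range (g ∘ x)) (mk_range_le.trans_lt hI)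
    refine ⟨ζ, fun q a => ?_⟩
    obtain ⟨r, k, y, l⟩ := e q a
    obtain ⟨i, m⟩ := c1 r
    obtain ⟨r', n, o⟩ := hx i ⟨y, r, m, l⟩
    obtain ⟨u, -, v, w⟩ := c2 i r m r' n
    exact ⟨u, v.trans k, _, r', d ⟨i, rfl⟩, w, o⟩
  choose φ hφ using fun t => cc _ id (h.small t)
  have lt : ∀ s t, ∀ q ≤ p, Mem (s, t) L q → s < φ t := fun s t q a d =>
    let ⟨r, e, x, r', i, j, k⟩ := hφ t q a; not_le.1 fun l => k s (i.trans l) r j (d.mono e)
  let B := fun a i => {s | ∃ q ∈ C i, q ≤ p ∧ Mem s (b a) q}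
  have : ∀ a, ∃ i, ¬ BddAbove (B a i) := fun a => not_forall.1 fun k => by
    obtain ⟨x, d⟩ := R.bdd_iUnion hI _ k
    obtain ⟨y, e⟩ := R.exists_gt x
    obtain ⟨r, f, s, i, j⟩ := h.unb a y p le_rfl
    obtain ⟨n, l⟩ := c1 r
    exact (e.trans_le i).not_ge (d (mem_iUnion.2 ⟨n, r, l, f, j⟩))
  choose n hn using this
  refine wkh R (range fun a => B a (n a)) (not_lt.1 fun k => hι.not_gt ((mk_le_of_injective
    (f := fun a => (n a, rangeFactorization (fun a => B a (n a)) a)) fun a c e => by_contra fun d => ?_).trans_lt ?_)) fun ξ => ?_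
  · obtain ⟨ζ, f⟩ := cc _ φ (h.ne a c d)
    obtain ⟨t, x, y⟩ := not_bddAbove_iff.1 (hn a) ζ
    obtain ⟨q', x', y', z'⟩ : t ∈ B c (n c) := (show B a (n a) = _ from congrArg (·.2.1) e).le x
    obtain ⟨q, x, u, z⟩ := x
    obtain ⟨r, -, r1, r2⟩ := c2 _ q x q' ((show n a = n c from congrArg (·.1) e) ▸ x')
    obtain ⟨v, v1, s, w, v2, v3, v4⟩ := f r (r1.trans u)
    have k : ∀ a c, Mem t (b a) v → Mem t (b c) v → Mem s (b a) w → ¬ Neg (Mem s (b c)) w := fun a c i j k l => by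
      have vp := v1.trans (r1.trans u)
      obtain ⟨o, o1, o2 | o2⟩ := h.chain a s t (fun e => l v v3 (e ▸ j)) v vp (k.mono v3) i
      exacts [l o (o1.trans v3) (h.down c s t o (o1.trans vp) o2 (j.mono o1)),
        (lt _ _ o (o1.trans vp) o2).not_ge (v2.trans y.le)]
    have i := z.mono (v1.trans r1)
    have j := z'.mono (v1.trans r2)
    exact v4.elim (fun l => k a c i j l.1 l.2) fun l => k c a j i l.1 l.2
  · simpa using mul_lt_of_lt (R.unc.le.trans (le_succ _)) (hI.trans (lt_succ _)) k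
  refine le_trans (mk_le_mk_of_subset (t := range fun x : I × X => {s | ∃ q ∈ C x.1, q ≤ p ∧ Mem (s, x.2) L q} ∩ Iio ξ) ?_)
    (mk_range_le.trans (by simpa using (mul_le_mul' hI.le le_rfl).trans (mul_eq_self R.unc.le).le))
  rintro _ ⟨_, ⟨a, rfl⟩, rfl⟩
  obtain ⟨ζ, d⟩ := R.bdd (φ '' Iic ξ) (mk_image_le.trans_lt (R.small ξ))
  obtain ⟨t, ⟨q, x, y, z⟩, w⟩ := not_bddAbove_iff.1 (hn a) (max ζ ξ)
  refine ⟨(n a, t), Set.ext fun s => and_congr_left fun (e : s < ξ) => ⟨fun ⟨q', i, j, k⟩ => ?_, fun ⟨q', i, j, k⟩ => ?_⟩⟩ <;>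
    obtain ⟨r, r0, r1, r2⟩ := c2 _ q x q' i <;> refine ⟨r, r0, r1.trans y, ?_⟩
  · exact h.down a s t r (r1.trans y) (k.mono r2) (z.mono r1)
  intro u u1
  obtain ⟨v, v1, v2 | v2⟩ := h.chain a s t (e.trans (max_lt_iff.1 w).2).ne u (u1.trans (r1.trans y)) (k.mono (u1.trans r2))
    (z.mono (u1.trans r1))
  · obtain ⟨o, o1, o2⟩ := v2 v le_rfl
    exact ⟨o, o1.trans v1, o2⟩
  · exact absurd (lt _ _ v (v1.trans (u1.trans (r1.trans y))) v2) ((d ⟨s, e.le, rfl⟩).trans (max_lt_iff.1 w).1.le).not_gt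

theorem result (κ : Cardinal.{0}) (hκ : ℵ₀ ≤ κ) (P : Type) [Preorder P] (I : Type) (hI : #I ≤ κ) (C : I → Set P)
    (c1 : ∀ p, ∃ i, p ∈ C i) (c2 : ∀ i, ∀ p ∈ C i, ∀ q ∈ C i, ∃ r ∈ C i, r ≤ p ∧ r ≤ q)
    (h : ¬ WKH (succ κ).ord.ToType) (ι : Type) (hι : succ (succ κ) ≤ #ι)
    (L : Set (((succ κ).ord.ToType × (succ κ).ord.ToType) × P)) (b : ι → Set ((succ κ).ord.ToType × P)) (p : P) :
    ¬ Forces L b p := fun f => h (main (reg_of_isRegular (isRegular_succ hκ) (lt_succ_of_le hκ))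
      (by simpa using hI) C c1 c2 (by simpa using hι) f)

end Pool.Agent.Results.MP_5ef322_lc.Q2
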